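import Mathlib

set_option autoImplicit false

open Matrix Complex
open scoped ComplexOrder

namespace Pool.Agent.Results.MP_baa5e6_mp.SixQubits

/-! ### Definitions -/

/-- The computational basis labels of `N` qubits. -/
abbrev Bits (N : ℕ) : Type := Fin N → Fin 2

/-- The Pauli matrix `σ_n = n_x X + n_y Y + n_z Z` along the vector `n`. -/
noncomputable def pauli (n : Fin 3 → ℝ) : Matrix (Fin 2) (Fin 2) ℂ :=
  !![(n 2 : ℂ), (n 0 : ℂ) - (n 1 : ℂ) * I; (n 0 : ℂ) + (n 1 : ℂ) * I, -(n 2 : ℂ)]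

/-- Tensor product of one-qubit matrices. -/
def tens {N : ℕ} (A : Fin N → Matrix (Fin 2) (Fin 2) ℂ) : Matrix (Bits N) (Bits N) ℂ :=
  fun b b' => ∏ i, A i (b i) (b' i)

/-- The observable `⊗_{i ∈ S} σ_n^{(i)}`. -/
noncomputable def obs {N : ℕ} (n : Fin 3 → ℝ) (S : Finset (Fin N)) :
    Matrix (Bits N) (Bits N) ℂ :=
  tens fun i => if i ∈ S then pauli n else 1

/-- The data `D_ρ(n, S) = Tr (ρ ⊗_{i ∈ S} σ_n^{(i)})`. -/
noncomputable def data {N : ℕ} (ρ : Matrix (Bits N) (Bits N) ℂ) (n : Fin 3 → ℝ)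
    (S : Finset (Fin N)) : ℂ := (ρ * obs n S).trace

/-- The matrix `|ψ⟩⟨ψ|`. -/
def proj {N : ℕ} (ψ : Bits N → ℂ) : Matrix (Bits N) (Bits N) ℂ := vecMulVec ψ (star ψ)

/-- `ψ` is a unit vector. -/
def IsUnitVec {N : ℕ} (ψ : Bits N → ℂ) : Prop := ∑ b, ‖ψ b‖ ^ 2 = 1

/-- The set of all states (density matrices). -/
def states (N : ℕ) : Set (Matrix (Bits N) (Bits N) ℂ) := {ρ | ρ.PosSemidef ∧ ρ.trace = 1}

/-- The set of pure states. -/
def pureStates (N : ℕ) : Set (Matrix (Bits N) (Bits N) ℂ) :=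
  {ρ | ∃ φ : Bits N → ℂ, IsUnitVec φ ∧ ρ = proj φ}

/-- `n` is a unit vector of `ℝ^3`. -/
def IsDirection (n : Fin 3 → ℝ) : Prop := n 0 ^ 2 + n 1 ^ 2 + n 2 ^ 2 = 1

/-- `ψ` is uniformly certifiable under the promise `C`. -/
def Certifiable {N : ℕ} (ψ : Bits N → ℂ) (C : Set (Matrix (Bits N) (Bits N) ℂ)) : Prop :=
  ∀ ρ ∈ C, (∀ n, IsDirection n → ∀ S, data ρ n S = data (proj ψ) n S) → ρ = proj ψ

/-! ### Tensor products -/

theorem tens_mul {N : ℕ} (A B : Fin N → Matrix (Fin 2) (Fin 2) ℂ) :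
    tens A * tens B = tens fun i => A i * B i := by
  ext b b'
  simp only [Matrix.mul_apply, tens]
  rw [Finset.prod_univ_sum]
  simp [Finset.prod_mul_distrib]

theorem tens_conjTranspose {N : ℕ} (A : Fin N → Matrix (Fin 2) (Fin 2) ℂ) :
    (tens A)ᴴ = tens fun i => (A i)ᴴ := by
  ext b b'
  simp [tens, Matrix.conjTranspose_apply]

theorem tens_congr {N : ℕ} {A B : Fin N → Matrix (Fin 2) (Fin 2) ℂ} (h : ∀ i, A i = B i) :
    tens A = tens B := by
  rw [funext h]

/-- The direction `z`. -/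
def ez : Fin 3 → ℝ := ![0, 0, 1]

/-- The direction `x`. -/
def ex : Fin 3 → ℝ := ![1, 0, 0]

theorem isDirection_ez : IsDirection ez := by simp [IsDirection, ez]
theorem isDirection_ex : IsDirection ex := by simp [IsDirection, ex]

theorem exists_rotation (n : Fin 3 → ℝ) (hn : IsDirection n) :
    ∃ U : Matrix (Fin 2) (Fin 2) ℂ, U.det = 1 ∧ U * Uᴴ = 1 ∧ pauli n = U * pauli ez * Uᴴ := by
  unfold IsDirection at hn
  by_cases h : n 2 = -1
  · have h0 : n 0 = 0 := by nlinarith [sq_nonneg (n 0), sq_nonneg (n 1)]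
    have h1 : n 1 = 0 := by nlinarith [sq_nonneg (n 0), sq_nonneg (n 1)]
    refine ⟨!![0, -1; 1, 0], by simp [Matrix.det_fin_two], ?_, ?_⟩
    · ext i j
      fin_cases i <;> fin_cases j <;> simp [Matrix.mul_apply, Fin.sum_univ_two]
    · ext i j
      fin_cases i <;> fin_cases j <;>
        simp [Matrix.mul_apply, Fin.sum_univ_two, pauli, ez, h0, h1, h]
  · have hpos : 0 < 1 + n 2 := by
      have h1 : -1 ≤ n 2 := by nlinarith [sq_nonneg (n 0), sq_nonneg (n 1)]
      have h2 : n 2 ≠ -1 := h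
      have h3 : -1 < n 2 := lt_of_le_of_ne h1 (Ne.symm h2)
      linarith
    set s : ℝ := Real.sqrt (2 * (1 + n 2)) with hs
    have hs2 : s ^ 2 = 2 * (1 + n 2) := Real.sq_sqrt (by linarith)
    have hs0 : s ≠ 0 := by
      intro h0
      rw [h0] at hs2
      nlinarith
    have hsC : (s : ℂ) ≠ 0 := by exact_mod_cast hs0
    have hs2C : (s : ℂ) ^ 2 = 2 * (1 + (n 2 : ℂ)) := by exact_mod_cast hs2
    have hnC : (n 0 : ℂ) ^ 2 + (n 1 : ℂ) ^ 2 + (n 2 : ℂ) ^ 2 = 1 := by exact_mod_cast hn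
    have hI : (I : ℂ) ^ 2 = -1 := Complex.I_sq
    refine ⟨!![(1 + (n 2 : ℂ)) / s, -((n 0 : ℂ) - (n 1 : ℂ) * I) / s;
      ((n 0 : ℂ) + (n 1 : ℂ) * I) / s, (1 + (n 2 : ℂ)) / s], ?_, ?_, ?_⟩
    · rw [Matrix.det_fin_two]
      simp only [Matrix.of_apply, Matrix.cons_val', Matrix.cons_val_zero, Matrix.cons_val_one,
        Matrix.cons_val_fin_one]
      field_simp
      rw [hs2C]
      linear_combination hnC - (n 1 : ℂ) ^ 2 * hI
    · have ht : (s : ℂ)⁻¹ * (s : ℂ)⁻¹ * (2 * (1 + (n 2 : ℂ))) = 1 := by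
        rw [← hs2C]
        field_simp
      ext i j
      fin_cases i <;> fin_cases j <;>
        simp [Matrix.mul_apply, Fin.sum_univ_two, Matrix.conjTranspose_apply, div_eq_mul_inv]
      · linear_combination ht + (s : ℂ)⁻¹ ^ 2 * hnC - (s : ℂ)⁻¹ ^ 2 * (n 1 : ℂ) ^ 2 * hI
      · ring
      · ring
      · linear_combination ht + (s : ℂ)⁻¹ ^ 2 * hnC - (s : ℂ)⁻¹ ^ 2 * (n 1 : ℂ) ^ 2 * hI
    · have ht : (s : ℂ)⁻¹ * (s : ℂ)⁻¹ * (2 * (1 + (n 2 : ℂ))) = 1 := by
        rw [← hs2C]
        field_simp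
      ext i j
      fin_cases i <;> fin_cases j <;>
        simp [Matrix.mul_apply, Fin.sum_univ_two, pauli, ez, Matrix.conjTranspose_apply,
          div_eq_mul_inv]
      · linear_combination -(n 2 : ℂ) * ht + (s : ℂ)⁻¹ ^ 2 * hnC -
          (s : ℂ)⁻¹ ^ 2 * (n 1 : ℂ) ^ 2 * hI
      · linear_combination -((n 0 : ℂ) - (n 1 : ℂ) * I) * ht
      · linear_combination -((n 0 : ℂ) + (n 1 : ℂ) * I) * ht
      · linear_combination (n 2 : ℂ) * ht - (s : ℂ)⁻¹ ^ 2 * hnC +
          (s : ℂ)⁻¹ ^ 2 * (n 1 : ℂ) ^ 2 * hI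

theorem obs_rotate {N : ℕ} {n : Fin 3 → ℝ} {U : Matrix (Fin 2) (Fin 2) ℂ} (hU : U * Uᴴ = 1)
    (hn : pauli n = U * pauli ez * Uᴴ) (S : Finset (Fin N)) :
    obs n S = tens (fun _ : Fin N => U) * obs ez S * (tens fun _ : Fin N => U)ᴴ := by
  rw [tens_conjTranspose, obs, obs, tens_mul, tens_mul]
  refine tens_congr fun i => ?_
  by_cases hi : i ∈ S
  · simp only [hi, if_true]
    exact hn
  · simp only [hi, if_false]
    rw [mul_one, hU]

/-- Invariance under the action of the special linear group. -/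
def Inv {N : ℕ} (v : Bits N → ℂ) : Prop :=
  ∀ U : Matrix (Fin 2) (Fin 2) ℂ, U.det = 1 → (tens fun _ : Fin N => U) *ᵥ v = v

theorem Inv.add {N : ℕ} {v w : Bits N → ℂ} (hv : Inv v) (hw : Inv w) : Inv (v + w) := by
  intro U hU
  rw [Matrix.mulVec_add, hv U hU, hw U hU]

theorem Inv.smul {N : ℕ} {v : Bits N → ℂ} (hv : Inv v) (c : ℂ) : Inv (c • v) := by
  intro U hU
  rw [Matrix.mulVec_smul, hv U hU]

theorem data_proj {N : ℕ} (v : Bits N → ℂ) (n : Fin 3 → ℝ) (S : Finset (Fin N)) :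
    data (proj v) n S = star v ⬝ᵥ (obs n S *ᵥ v) := by
  rw [data, proj, Matrix.vecMulVec_mul, Matrix.trace_vecMulVec, dotProduct_comm,
    Matrix.dotProduct_mulVec]

/-- The data of an invariant vector do not depend on the direction. -/
theorem data_inv {N : ℕ} {v : Bits N → ℂ} (hv : Inv v) {n : Fin 3 → ℝ} (hn : IsDirection n)
    (S : Finset (Fin N)) : data (proj v) n S = data (proj v) ez S := by
  obtain ⟨U, hdet, hU, hpn⟩ := exists_rotation n hn
  rw [data_proj, data_proj, obs_rotate hU hpn]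
  have h1 : (tens fun _ : Fin N => U)ᴴ *ᵥ v = v := by
    rw [tens_conjTranspose]
    exact hv Uᴴ (by rw [Matrix.det_conjTranspose, hdet, star_one])
  have h2 : star v ᵥ* (tens fun _ : Fin N => U) = star v := by
    have h3 := congrArg star h1
    rw [Matrix.star_mulVec, Matrix.conjTranspose_conjTranspose] at h3
    exact h3
  rw [Matrix.mul_assoc, ← Matrix.mulVec_mulVec, ← Matrix.mulVec_mulVec, h1,
    Matrix.dotProduct_mulVec, h2]

/-- The value `±1` of a bit. -/
def sg (x : Fin 2) : ℤ := if x = 0 then 1 else -1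

theorem obs_ez {N : ℕ} (S : Finset (Fin N)) (b b' : Bits N) :
    obs ez S b b' = if b = b' then ∏ i ∈ S, (sg (b i) : ℂ) else 0 := by
  rw [obs, tens]
  by_cases h : b = b'
  · subst h
    rw [if_pos rfl, ← Finset.prod_subset (Finset.subset_univ S)]
    · refine Finset.prod_congr rfl fun i hi => ?_
      simp only [hi, if_true]
      generalize b i = x
      fin_cases x <;> simp [pauli, ez, sg]
    · intro i _ hi
      simp [hi]
  · rw [if_neg h]
    obtain ⟨i, hi⟩ := Function.ne_iff.1 h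
    refine Finset.prod_eq_zero (Finset.mem_univ i) ?_
    by_cases hiS : i ∈ S
    · simp only [hiS, if_true]
      revert hi
      generalize b i = x
      generalize b' i = y
      intro hxy
      fin_cases x <;> fin_cases y <;> simp_all [pauli, ez]
    · simp [hiS, hi]

theorem data_ez {N : ℕ} (ρ : Matrix (Bits N) (Bits N) ℂ) (S : Finset (Fin N)) :
    data ρ ez S = ∑ b, ρ b b * ∏ i ∈ S, (sg (b i) : ℂ) := by
  rw [data, Matrix.trace]
  refine Finset.sum_congr rfl fun b _ => ?_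
  rw [Matrix.diag_apply, Matrix.mul_apply, Finset.sum_eq_single b]
  · rw [obs_ez, if_pos rfl]
  · intro b' _ hb'
    rw [obs_ez, if_neg hb', mul_zero]
  · intro h
    exact absurd (Finset.mem_univ b) h

/-! ### Products of three singlets -/

/-- The antisymmetric form of a pair of bits. -/
def eps (x y : Fin 2) : ℤ := if x = y then 0 else if x = 0 then 1 else -1

/-- The product of the singlets on the pairs `p k 0, p k 1`, `k = 0, 1, 2`. -/
def mz (p : Fin 3 → Fin 2 → Fin 6) (b : Bits 6) : ℤ := ∏ k, eps (b (p k 0)) (b (p k 1))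

theorem pair_sum (U : Matrix (Fin 2) (Fin 2) ℂ) (hU : U.det = 1) (x y : Fin 2) :
    ∑ c : Fin 2 → Fin 2, (U x (c 0) * U y (c 1)) * (eps (c 0) (c 1) : ℂ) = (eps x y : ℂ) := by
  rw [Matrix.det_fin_two] at hU
  refine (Fintype.sum_equiv (finTwoArrowEquiv (Fin 2)) _
    (fun q : Fin 2 × Fin 2 => (U x q.1 * U y q.2) * (eps q.1 q.2 : ℂ)) (fun c => rfl)).trans ?_
  rw [Fintype.sum_prod_type]
  simp only [Fin.sum_univ_two]
  fin_cases x <;> fin_cases y <;> simp [eps]
  · ring
  · linear_combination hU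
  · linear_combination -hU
  · ring

theorem inv_mz (p : Fin 3 → Fin 2 → Fin 6)
    (hp : Function.Bijective fun q : Fin 3 × Fin 2 => p q.1 q.2) :
    Inv (fun b => (mz p b : ℂ)) := by
  intro U hU
  funext b
  let m : Fin 3 × Fin 2 ≃ Fin 6 := Equiv.ofBijective _ hp
  let E : Bits 6 ≃ (Fin 3 → (Fin 2 → Fin 2)) :=
    (Equiv.arrowCongr m.symm (Equiv.refl (Fin 2))).trans (Equiv.curry _ _ _)
  have hE : ∀ b' k s, E b' k s = b' (p k s) := fun b' k s => rfl
  rw [Matrix.mulVec, dotProduct]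
  have h1 : ∀ b' : Bits 6, tens (fun _ : Fin 6 => U) b b' * (mz p b' : ℂ) =
      ∏ k, (U (b (p k 0)) (E b' k 0) * U (b (p k 1)) (E b' k 1)) *
        (eps (E b' k 0) (E b' k 1) : ℂ) := by
    intro b'
    rw [Finset.prod_mul_distrib]
    congr 1
    · rw [tens, ← Equiv.prod_comp m, Fintype.prod_prod_type]
      refine Finset.prod_congr rfl fun k _ => ?_
      rw [Fin.prod_univ_two]
      rfl
    · simp only [mz, hE]
      push_cast
      rfl
  rw [Finset.sum_congr rfl fun b' _ => h1 b',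
    Fintype.sum_equiv E _ (fun c : Fin 3 → (Fin 2 → Fin 2) =>
      ∏ k, (U (b (p k 0)) (c k 0) * U (b (p k 1)) (c k 1)) * (eps (c k 0) (c k 1) : ℂ))
      (fun b' => rfl)]
  have h2 := Finset.prod_univ_sum (fun _ : Fin 3 => (Finset.univ : Finset (Fin 2 → Fin 2)))
    (fun k (c : Fin 2 → Fin 2) => (U (b (p k 0)) (c 0) * U (b (p k 1)) (c 1)) *
      (eps (c 0) (c 1) : ℂ))
  rw [Fintype.piFinset_univ] at h2
  rw [← h2]
  simp only [pair_sum U hU]
  simp [mz]

/-! ### Full read-out along `z` and `x` -/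

theorem sum_obs {N : ℕ} (n : Fin 3 → ℝ) (s : Fin N → ℂ) (b b' : Bits N) :
    ∑ S : Finset (Fin N), (∏ i ∈ S, s i) * obs n S b b' =
      ∏ i, (s i * pauli n (b i) (b' i) + (1 : Matrix (Fin 2) (Fin 2) ℂ) (b i) (b' i)) := by
  rw [Finset.prod_add, Finset.powerset_univ]
  refine Finset.sum_congr rfl fun S _ => ?_
  rw [Finset.prod_mul_distrib, mul_assoc]
  congr 1
  rw [obs, tens, ← Finset.prod_mul_prod_compl S]
  congr 1
  · exact Finset.prod_congr rfl fun i hi => by simp [hi]
  · rw [Finset.compl_eq_univ_sdiff]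
    exact Finset.prod_congr rfl fun i hi => by
      rw [Finset.mem_sdiff] at hi
      simp [hi.2]

theorem sum_data {N : ℕ} (ρ : Matrix (Bits N) (Bits N) ℂ) (n : Fin 3 → ℝ) (s : Fin N → ℂ) :
    ∑ S : Finset (Fin N), (∏ i ∈ S, s i) * data ρ n S =
      ∑ b, ∑ b', ρ b b' * ∏ i, (s i * pauli n (b' i) (b i) +
        (1 : Matrix (Fin 2) (Fin 2) ℂ) (b' i) (b i)) := by
  simp only [data, Matrix.trace, Matrix.diag_apply, Matrix.mul_apply, Finset.mul_sum]
  rw [Finset.sum_comm]
  refine Finset.sum_congr rfl fun b _ => ?_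
  rw [Finset.sum_comm]
  refine Finset.sum_congr rfl fun b' _ => ?_
  rw [← sum_obs, Finset.mul_sum]
  exact Finset.sum_congr rfl fun S _ => by ring

/-- The data along `z` determine the diagonal. -/
theorem diag_eq {N : ℕ} {ρ ρ' : Matrix (Bits N) (Bits N) ℂ}
    (h : ∀ S, data ρ ez S = data ρ' ez S) (b0 : Bits N) : ρ b0 b0 = ρ' b0 b0 := by
  have key : ∀ ρ : Matrix (Bits N) (Bits N) ℂ,
      ∑ S : Finset (Fin N), (∏ i ∈ S, (sg (b0 i) : ℂ)) * data ρ ez S = 2 ^ N * ρ b0 b0 := by
    intro ρ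
    rw [sum_data]
    have h1 : ∀ b b' : Bits N, ∏ i, ((sg (b0 i) : ℂ) * pauli ez (b' i) (b i) +
        (1 : Matrix (Fin 2) (Fin 2) ℂ) (b' i) (b i)) = if b = b0 ∧ b' = b0 then 2 ^ N else 0 := by
      intro b b'
      have h2 : ∀ x y z : Fin 2, (sg z : ℂ) * pauli ez y x + (1 : Matrix (Fin 2) (Fin 2) ℂ) y x =
          if x = z ∧ y = z then 2 else 0 := by
        intro x y z
        fin_cases x <;> fin_cases y <;> fin_cases z <;> simp [sg, pauli, ez] <;> norm_num
      simp only [h2]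
      by_cases h3 : b = b0 ∧ b' = b0
      · rw [if_pos h3, h3.1, h3.2]
        simp
      · rw [if_neg h3]
        by_cases h4 : b = b0
        · have h5 : b' ≠ b0 := fun h => h3 ⟨h4, h⟩
          obtain ⟨i, hi⟩ := Function.ne_iff.1 h5
          exact Finset.prod_eq_zero (Finset.mem_univ i) (by simp [hi])
        · obtain ⟨i, hi⟩ := Function.ne_iff.1 h4
          exact Finset.prod_eq_zero (Finset.mem_univ i) (by simp [hi])
    simp only [h1]
    rw [Finset.sum_eq_single b0, Finset.sum_eq_single b0]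
    · simp [mul_comm]
    · intro b' _ hb'
      simp [hb']
    · intro h
      exact absurd (Finset.mem_univ b0) h
    · intro b _ hb
      simp [hb]
    · intro h
      exact absurd (Finset.mem_univ b0) h
  have h1 := key ρ
  have h2 := key ρ'
  simp only [h] at h1
  rw [h1] at h2
  exact mul_left_cancel₀ (by positivity) h2

/-- The character with sign pattern `J`. -/
def chi {N : ℕ} (J : Finset (Fin N)) (b : Bits N) : ℤ := ∏ i ∈ J, sg (b i)

/-- The data along `x` determine the moduli of the Hadamard transform. -/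
theorem hadamard_eq {N : ℕ} {φ ψ : Bits N → ℂ}
    (h : ∀ S, data (proj φ) ex S = data (proj ψ) ex S) (J : Finset (Fin N)) :
    ‖∑ b, (chi J b : ℂ) * φ b‖ = ‖∑ b, (chi J b : ℂ) * ψ b‖ := by
  have key : ∀ φ : Bits N → ℂ,
      ∑ S : Finset (Fin N), (∏ i ∈ S, (if i ∈ J then -1 else 1 : ℂ)) * data (proj φ) ex S =
        (‖∑ b, (chi J b : ℂ) * φ b‖ ^ 2 : ℝ) := by
    intro φ
    rw [sum_data]
    have h1 : ∀ b b' : Bits N, ∏ i, ((if i ∈ J then -1 else 1 : ℂ) * pauli ex (b' i) (b i) +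
        (1 : Matrix (Fin 2) (Fin 2) ℂ) (b' i) (b i)) = (chi J b : ℂ) * (chi J b' : ℂ) := by
      intro b b'
      have h2 : ∀ (x y : Fin 2) (s : Prop) [Decidable s], (if s then -1 else 1 : ℂ) * pauli ex y x +
          (1 : Matrix (Fin 2) (Fin 2) ℂ) y x =
          (if s then (sg x : ℂ) * (sg y : ℂ) else 1) := by
        intro x y s _
        by_cases hs : s <;> fin_cases x <;> fin_cases y <;> simp [sg, pauli, ex, hs]
      simp only [h2]
      rw [chi, chi]
      push_cast
      rw [← Finset.prod_mul_distrib, Finset.prod_ite_mem]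
      simp
    simp only [h1, proj, Matrix.vecMulVec_apply, Pi.star_apply]
    rw [Complex.ofReal_pow, ← Complex.conj_mul', map_sum, Finset.sum_mul_sum, Finset.sum_comm]
    refine Finset.sum_congr rfl fun b _ => Finset.sum_congr rfl fun b' _ => ?_
    rw [map_mul, map_intCast, starRingEnd_apply]
    ring
  have h1 := key φ
  have h2 := key ψ
  simp only [h] at h1
  rw [h1] at h2
  have h3 : ‖∑ b, (chi J b : ℂ) * φ b‖ ^ 2 = ‖∑ b, (chi J b : ℂ) * ψ b‖ ^ 2 := by
    exact_mod_cast h2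
  exact (pow_left_inj₀ (norm_nonneg _) (norm_nonneg _) (by norm_num)).1 h3

/-! ### The core lemma about six complex numbers -/

theorem E_formula (E : Fin 6 → Fin 6 → ℝ) (hsym : ∀ i j, E i j = E j i)
    (hrow : ∀ i, ∑ j, E i j = 0)
    (htri : ∀ i j k, i ≠ j → i ≠ k → j ≠ k →
      E i i + E j j + E k k + 2 * (E i j + E i k + E j k) = 0) :
    (∀ i j, i ≠ j → E i j = -(E i i + E j j) / 4) ∧ ∑ i, E i i = 0 := by
  have htr : ∀ i j, i ≠ j → 2 * E i j = -(E i i + E j j) / 2 - (∑ l, E l l) / 2 := by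
    intro i j hij
    -- sum of the triple relations over the four other indices
    have h1 : ∑ k ∈ Finset.univ \ {i, j},
        (E i i + E j j + E k k + 2 * (E i j + E i k + E j k)) = 0 := by
      refine Finset.sum_eq_zero fun k hk => ?_
      simp only [Finset.mem_sdiff, Finset.mem_univ, true_and, Finset.mem_insert,
        Finset.mem_singleton, not_or] at hk
      exact htri i j k hij (Ne.symm hk.1) (Ne.symm hk.2)
    have h2 : ∀ f : Fin 6 → ℝ, ∑ k ∈ Finset.univ \ {i, j}, f k = ∑ k, f k - f i - f j := by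
      intro f
      have h3 := Finset.sum_sdiff (f := f) (Finset.subset_univ ({i, j} : Finset (Fin 6)))
      rw [Finset.sum_pair hij] at h3
      linarith
    rw [h2] at h1
    simp only [Finset.sum_add_distrib, ← Finset.mul_sum, hrow, Finset.sum_const,
      Finset.card_univ, Fintype.card_fin, nsmul_eq_mul] at h1
    have h4 := hsym i j
    push_cast at h1
    linarith
  have hsum : ∑ i, E i i = 0 := by
    have h0 := hrow 0
    have h1 := htr 0 1 (by decide)
    have h2 := htr 0 2 (by decide)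
    have h3 := htr 0 3 (by decide)
    have h4 := htr 0 4 (by decide)
    have h5 := htr 0 5 (by decide)
    simp only [Fin.sum_univ_six] at h0 h1 h2 h3 h4 h5 ⊢
    linarith
  refine ⟨fun i j hij => ?_, hsum⟩
  have := htr i j hij
  rw [hsum] at this
  linarith

theorem two_zeros (e : Fin 6 → ℝ)
    (h1 : ∀ i j m, i ≠ j → i ≠ m → j ≠ m → e i < 0 → e j < 0 → 0 < e m)
    (h2 : ∀ i j k m, i ≠ j → i ≠ k → j ≠ k → i ≠ m → j ≠ m → k ≠ m →
      0 < e i → 0 < e j → 0 < e k → e m < 0) : ∃ k l, k ≠ l ∧ e k = 0 ∧ e l = 0 := by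
  by_contra hno
  push Not at hno
  set P := Finset.univ.filter fun i => 0 < e i with hP
  set N := Finset.univ.filter fun i => e i < 0 with hN
  set Z := Finset.univ.filter fun i => e i = 0 with hZ
  have hcP : P.card ≤ 3 := by
    by_contra hc
    push Not at hc
    obtain ⟨i, hi, j, hj, k, hk, hij, hik, hjk⟩ := Finset.two_lt_card.1 (by omega : 2 < P.card)
    have h3 : 0 < (P \ {i, j, k}).card := by
      have h4 := Finset.le_card_sdiff {i, j, k} P
      have h5 : ({i, j, k} : Finset (Fin 6)).card ≤ 3 := Finset.card_le_three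
      omega
    obtain ⟨m, hm⟩ := Finset.card_pos.1 h3
    simp only [hP, Finset.mem_sdiff, Finset.mem_filter, Finset.mem_univ, true_and,
      Finset.mem_insert, Finset.mem_singleton, not_or] at hm hi hj hk
    have h4 := h2 i j k m hij hik hjk (Ne.symm hm.2.1) (Ne.symm hm.2.2.1) (Ne.symm hm.2.2.2)
      hi hj hk
    linarith [hm.1]
  have hcN : N.card ≤ 2 := by
    by_contra hc
    push Not at hc
    obtain ⟨i, hi, j, hj, k, hk, hij, hik, hjk⟩ := Finset.two_lt_card.1 hc
    simp only [hN, Finset.mem_filter, Finset.mem_univ, true_and] at hi hj hk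
    have h4 := h1 i j k hij hik hjk hi hj
    linarith
  have hcZ : Z.card ≤ 1 := by
    refine Finset.card_le_one.2 fun k hk l hl => ?_
    simp only [hZ, Finset.mem_filter, Finset.mem_univ, true_and] at hk hl
    by_contra hkl
    exact hno k l hkl hk hl
  have hall : (Finset.univ : Finset (Fin 6)) ⊆ P ∪ N ∪ Z := by
    intro i _
    rcases lt_trichotomy (e i) 0 with h | h | h
    · simp [hN, h]
    · simp [hZ, h]
    · simp [hP, h]
  have hcard := (Finset.card_le_card hall).trans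
    ((Finset.card_union_le _ _).trans (Nat.add_le_add_right (Finset.card_union_le _ _) _))
  rw [Finset.card_univ, Fintype.card_fin] at hcard
  obtain ⟨i, j, hij, hNe⟩ := Finset.card_eq_two.1 (by omega : N.card = 2)
  obtain ⟨m, hm⟩ := Finset.card_pos.1 (by omega : 0 < Z.card)
  have hi : i ∈ N := by rw [hNe]; simp
  have hj : j ∈ N := by rw [hNe]; simp
  simp only [hN, hZ, Finset.mem_filter, Finset.mem_univ, true_and] at hi hj hm
  have him : i ≠ m := by
    rintro rfl
    linarith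
  have hjm : j ≠ m := by
    rintro rfl
    linarith
  have h4 := h1 i j m hij him hjm hi hj
  linarith

theorem Q3 (c : Fin 6 → ℂ) (a : Fin 6 → ℝ) (e : Fin 6 → ℝ)
    (hE : ∀ i j, i ≠ j → (c i).re * (c j).re + (c i).im * (c j).im - a i * a j =
      -(e i + e j) / 4)
    (he : ∀ i, (c i).re ^ 2 + (c i).im ^ 2 - a i ^ 2 = e i)
    (i j m : Fin 6) (hij : i ≠ j) (him : i ≠ m) (hjm : j ≠ m) (x y z : ℝ) (h : x + y + z = 0) :
    (x * (c i).re + y * (c j).re + z * (c m).re) ^ 2 +
      (x * (c i).im + y * (c j).im + z * (c m).im) ^ 2 - (x * a i + y * a j + z * a m) ^ 2 =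
      3 / 2 * (e i * x ^ 2 + e j * y ^ 2 + e m * z ^ 2) := by
  have hx : x = -y - z := by linarith
  subst hx
  linear_combination (-y - z) ^ 2 * he i + y ^ 2 * he j + z ^ 2 * he m +
    2 * (-y - z) * y * hE i j hij + 2 * (-y - z) * z * hE i m him + 2 * y * z * hE j m hjm

theorem Q4 (c : Fin 6 → ℂ) (a : Fin 6 → ℝ) (e : Fin 6 → ℝ)
    (hE : ∀ i j, i ≠ j → (c i).re * (c j).re + (c i).im * (c j).im - a i * a j =
      -(e i + e j) / 4)
    (he : ∀ i, (c i).re ^ 2 + (c i).im ^ 2 - a i ^ 2 = e i)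
    (i j k m : Fin 6) (hij : i ≠ j) (hik : i ≠ k) (hjk : j ≠ k) (him : i ≠ m) (hjm : j ≠ m)
    (hkm : k ≠ m) (x y z t : ℝ) (h : x + y + z + t = 0) :
    (x * (c i).re + y * (c j).re + z * (c k).re + t * (c m).re) ^ 2 +
      (x * (c i).im + y * (c j).im + z * (c k).im + t * (c m).im) ^ 2 -
      (x * a i + y * a j + z * a k + t * a m) ^ 2 =
      3 / 2 * (e i * x ^ 2 + e j * y ^ 2 + e k * z ^ 2 + e m * t ^ 2) := by
  have hx : x = -y - z - t := by linarith
  subst hx
  linear_combination (-y - z - t) ^ 2 * he i + y ^ 2 * he j + z ^ 2 * he k + t ^ 2 * he m +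
    2 * (-y - z - t) * y * hE i j hij + 2 * (-y - z - t) * z * hE i k hik +
    2 * (-y - z - t) * t * hE i m him + 2 * y * z * hE j k hjk + 2 * y * t * hE j m hjm +
    2 * z * t * hE k m hkm

theorem exists_null (r s : Fin 4 → ℝ) : ∃ x : Fin 4 → ℝ, x ≠ 0 ∧ x 0 + x 1 + x 2 + x 3 = 0 ∧
    x 0 * r 0 + x 1 * r 1 + x 2 * r 2 + x 3 * r 3 = 0 ∧
    x 0 * s 0 + x 1 * s 1 + x 2 * s 2 + x 3 * s 3 = 0 := by
  let M : Matrix (Fin 4) (Fin 4) ℝ := ![fun _ => 1, r, s, 0]
  have hdet : M.det = 0 := Matrix.det_eq_zero_of_row_eq_zero 3 (fun j => rfl)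
  obtain ⟨v, hv0, hv⟩ := Matrix.exists_mulVec_eq_zero_iff.2 hdet
  refine ⟨v, hv0, ?_, ?_, ?_⟩
  · have := congrFun hv 0
    simp [M, Matrix.mulVec, dotProduct, Fin.sum_univ_four] at this
    linarith
  · have := congrFun hv 1
    simp [M, Matrix.mulVec, dotProduct, Fin.sum_univ_four] at this
    linarith
  · have := congrFun hv 2
    simp [M, Matrix.mulVec, dotProduct, Fin.sum_univ_four] at this
    linarith

theorem core_lemma (a : Fin 6 → ℝ) (ha : Function.Injective a) (ha0 : ∑ i, a i = 0)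
    (c : Fin 6 → ℂ) (hc : ∑ i, c i = 0)
    (h : ∀ i j k, i ≠ j → i ≠ k → j ≠ k →
      ‖c i + c j + c k‖ = ‖((a i + a j + a k : ℝ) : ℂ)‖) :
    ∃ μ : ℂ, ‖μ‖ = 1 ∧ ∀ i, c i = μ * (a i : ℂ) := by
  have hre : ∑ i, (c i).re = 0 := by rw [← Complex.re_sum, hc]; rfl
  have him : ∑ i, (c i).im = 0 := by rw [← Complex.im_sum, hc]; rfl
  obtain ⟨hE, hE0⟩ := E_formula
    (fun i j => (c i).re * (c j).re + (c i).im * (c j).im - a i * a j)
    (fun i j => by ring)
    (fun i => by
      rw [Finset.sum_sub_distrib, Finset.sum_add_distrib, ← Finset.mul_sum, ← Finset.mul_sum,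
        ← Finset.mul_sum, hre, him, ha0]
      ring)
    (fun i j k hij hik hjk => by
      have h1 := h i j k hij hik hjk
      have h2 : ‖c i + c j + c k‖ ^ 2 = ‖((a i + a j + a k : ℝ) : ℂ)‖ ^ 2 := by rw [h1]
      rw [← Complex.normSq_eq_norm_sq, ← Complex.normSq_eq_norm_sq, Complex.normSq_apply,
        Complex.normSq_ofReal] at h2
      simp only [Complex.add_re, Complex.add_im] at h2
      linarith)
  set e : Fin 6 → ℝ := fun i => (c i).re * (c i).re + (c i).im * (c i).im - a i * a i with he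
  have hE' : ∀ i j, i ≠ j → (c i).re * (c j).re + (c i).im * (c j).im - a i * a j =
      -(e i + e j) / 4 := hE
  have he' : ∀ i, (c i).re ^ 2 + (c i).im ^ 2 - a i ^ 2 = e i := fun i => by
    simp only [he]; ring
  obtain ⟨k, l, hkl, hk, hl⟩ := two_zeros e (by
    intro i j m hij him hjm hi hj
    by_contra hm
    push Not at hm
    have h1 := Q3 c a e hE' he' i j m hij him hjm (a j - a m) (a m - a i) (a i - a j) (by ring)
    have h2 : (a j - a m) * a i + (a m - a i) * a j + (a i - a j) * a m = 0 := by ring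
    rw [h2] at h1
    have h3 : a j - a m ≠ 0 := sub_ne_zero.2 fun h => hjm (ha h)
    have h4 : 0 < (a j - a m) ^ 2 := by positivity
    have h5 : e i * (a j - a m) ^ 2 < 0 := mul_neg_of_neg_of_pos hi h4
    have h6 : e j * (a m - a i) ^ 2 ≤ 0 := mul_nonpos_of_nonpos_of_nonneg hj.le (sq_nonneg _)
    have h7 : e m * (a i - a j) ^ 2 ≤ 0 := mul_nonpos_of_nonpos_of_nonneg hm (sq_nonneg _)
    nlinarith [sq_nonneg ((a j - a m) * (c i).re + (a m - a i) * (c j).re +
      (a i - a j) * (c m).re), sq_nonneg ((a j - a m) * (c i).im + (a m - a i) * (c j).im +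
      (a i - a j) * (c m).im)]) (by
    intro i j k m hij hik hjk him hjm hkm hi hj hk
    by_contra hm
    push Not at hm
    obtain ⟨x, hx0, hx1, hx2, hx3⟩ := exists_null
      ![(c i).re, (c j).re, (c k).re, (c m).re] ![(c i).im, (c j).im, (c k).im, (c m).im]
    simp at hx2 hx3
    have h1 := Q4 c a e hE' he' i j k m hij hik hjk him hjm hkm _ _ _ _ hx1
    rw [hx2, hx3] at h1
    have g1 : 0 ≤ e i * x 0 ^ 2 := by positivity
    have g2 : 0 ≤ e j * x 1 ^ 2 := by positivity
    have g3 : 0 ≤ e k * x 2 ^ 2 := by positivity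
    have g4 : 0 ≤ e m * x 3 ^ 2 := by positivity
    have g5 := sq_nonneg (x 0 * a i + x 1 * a j + x 2 * a k + x 3 * a m)
    have f1 : e i * x 0 ^ 2 = 0 := by linarith
    have f2 : e j * x 1 ^ 2 = 0 := by linarith
    have f3 : e k * x 2 ^ 2 = 0 := by linarith
    have x0 : x 0 = 0 := by
      rcases mul_eq_zero.1 f1 with h | h
      · linarith
      · exact pow_eq_zero_iff (by norm_num) |>.1 h
    have x1 : x 1 = 0 := by
      rcases mul_eq_zero.1 f2 with h | h
      · linarith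
      · exact pow_eq_zero_iff (by norm_num) |>.1 h
    have x2 : x 2 = 0 := by
      rcases mul_eq_zero.1 f3 with h | h
      · linarith
      · exact pow_eq_zero_iff (by norm_num) |>.1 h
    have x3 : x 3 = 0 := by linarith
    apply hx0
    funext t
    fin_cases t
    · exact x0
    · exact x1
    · exact x2
    · exact x3)
  -- the differences with `c k`
  have hg : a l - a k ≠ 0 := sub_ne_zero.2 fun h => hkl (ha h).symm
  have hR : ∀ i, ((c i).re - (c k).re) * ((c l).re - (c k).re) +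
      ((c i).im - (c k).im) * ((c l).im - (c k).im) = (a i - a k) * (a l - a k) := by
    intro i
    have h1 := hE' k l hkl
    have h2 := he' k
    have h3 := he' l
    by_cases hik : i = k
    · subst hik
      ring
    · by_cases hil : i = l
      · subst hil
        rw [hk] at h1 h2
        rw [hl] at h1 h3
        linear_combination h3 - 2 * h1 + h2
      · have h4 := hE' i l hil
        have h5 := hE' i k hik
        rw [hk] at h1 h2 h5
        rw [hl] at h1 h3 h4
        linear_combination h4 - h5 - h1 + h2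
  have hN : ∀ i, i ≠ k → ((c i).re - (c k).re) ^ 2 + ((c i).im - (c k).im) ^ 2 =
      (a i - a k) ^ 2 + 3 / 2 * e i := by
    intro i hik
    have h2 := he' k
    have h3 := he' i
    have h5 := hE' i k hik
    rw [hk] at h2 h5
    linear_combination h3 - 2 * h5 + h2
  have hNl := hN l (Ne.symm hkl)
  rw [hl, mul_zero, add_zero] at hNl
  -- the imaginary parts
  have hIm : ∀ i, i ≠ k → (((c i).im - (c k).im) * ((c l).re - (c k).re) -
      ((c i).re - (c k).re) * ((c l).im - (c k).im)) ^ 2 = 3 / 2 * e i * (a l - a k) ^ 2 := by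
    intro i hik
    have h1 := hR i
    have h2 := hN i hik
    have h3 : (((c i).im - (c k).im) * ((c l).re - (c k).re) -
        ((c i).re - (c k).re) * ((c l).im - (c k).im)) ^ 2 +
        (((c i).re - (c k).re) * ((c l).re - (c k).re) +
      ((c i).im - (c k).im) * ((c l).im - (c k).im)) ^ 2 =
        (((c i).re - (c k).re) ^ 2 + ((c i).im - (c k).im) ^ 2) *
        (((c l).re - (c k).re) ^ 2 + ((c l).im - (c k).im) ^ 2) := by ring
    rw [h1, h2, hNl] at h3
    linarith
  have hpos : ∀ i, 0 ≤ e i := by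
    intro i
    by_cases hik : i = k
    · rw [hik, hk]
    · have h1 := hIm i hik
      have h2 : 0 < (a l - a k) ^ 2 := by positivity
      by_contra h3
      push Not at h3
      have h4 : e i * (a l - a k) ^ 2 < 0 := mul_neg_of_neg_of_pos h3 h2
      nlinarith [sq_nonneg (((c i).im - (c k).im) * ((c l).re - (c k).re) -
        ((c i).re - (c k).re) * ((c l).im - (c k).im))]
  have he0 : ∀ i, e i = 0 := fun i =>
    (Finset.sum_eq_zero_iff_of_nonneg fun i _ => hpos i).1 hE0 i (Finset.mem_univ i)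
  have hIm0 : ∀ i, ((c i).im - (c k).im) * ((c l).re - (c k).re) -
      ((c i).re - (c k).re) * ((c l).im - (c k).im) = 0 := by
    intro i
    by_cases hik : i = k
    · subst hik; ring
    · have h1 := hIm i hik
      rw [he0 i] at h1
      have h2 : (((c i).im - (c k).im) * ((c l).re - (c k).re) -
        ((c i).re - (c k).re) * ((c l).im - (c k).im)) ^ 2 = 0 := by rw [h1]; ring
      exact pow_eq_zero_iff (by norm_num) |>.1 h2
  have hgC : ((a l - a k : ℝ) : ℂ) ≠ 0 := by exact_mod_cast hg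
  refine ⟨(c l - c k) / ((a l - a k : ℝ) : ℂ), ?_, ?_⟩
  · rw [norm_div, div_eq_one_iff_eq (by simpa using hgC)]
    have h1 : ‖c l - c k‖ ^ 2 = ‖((a l - a k : ℝ) : ℂ)‖ ^ 2 := by
      rw [← Complex.normSq_eq_norm_sq, ← Complex.normSq_eq_norm_sq, Complex.normSq_apply,
        Complex.normSq_ofReal]
      simp only [Complex.sub_re, Complex.sub_im]
      linarith
    exact (pow_left_inj₀ (norm_nonneg _) (norm_nonneg _) (by norm_num)).1 h1
  · have hd : ∀ i, (c i - c k) * ((a l - a k : ℝ) : ℂ) = (c l - c k) * ((a i - a k : ℝ) : ℂ) := by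
      intro i
      have h1 := hR i
      have h2 := hIm0 i
      have h3 := hNl
      apply Complex.ext
      · simp only [Complex.mul_re, Complex.sub_re, Complex.sub_im, Complex.ofReal_re,
          Complex.ofReal_im]
        apply mul_right_cancel₀ hg
        linear_combination (-((c i).re - (c k).re)) * h3 + ((c l).re - (c k).re) * h1 -
          ((c l).im - (c k).im) * h2
      · simp only [Complex.mul_im, Complex.sub_re, Complex.sub_im, Complex.ofReal_re,
          Complex.ofReal_im]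
        apply mul_right_cancel₀ hg
        linear_combination (-((c i).im - (c k).im)) * h3 + ((c l).im - (c k).im) * h1 +
          ((c l).re - (c k).re) * h2
    have hck : c k * ((a l - a k : ℝ) : ℂ) = (c l - c k) * (a k : ℂ) := by
      have h1 : ∑ i, (c i - c k) * ((a l - a k : ℝ) : ℂ) =
          ∑ i, (c l - c k) * ((a i - a k : ℝ) : ℂ) := Finset.sum_congr rfl fun i _ => hd i
      rw [← Finset.sum_mul, ← Finset.mul_sum, Finset.sum_sub_distrib, hc] at h1
      have h2 : ∑ i, ((a i - a k : ℝ) : ℂ) = -6 * (a k : ℂ) := by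
        push_cast
        rw [Finset.sum_sub_distrib]
        have h3 : (∑ i, (a i : ℂ)) = 0 := by exact_mod_cast ha0
        rw [h3]
        simp
      rw [h2] at h1
      simp at h1
      push_cast
      linear_combination (1 / 6 : ℂ) * h1
    intro i
    have h1 := hd i
    rw [div_mul_eq_mul_div, eq_div_iff hgC]
    push_cast at h1 hck ⊢
    linear_combination h1 + hck

/-! ### The six sign vectors of the spin-zero space of six qubits -/

/-- six perfect matchings of the six qubits -/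
def ps : Fin 6 → Fin 3 → Fin 2 → Fin 6 :=
  ![![![0, 1], ![2, 3], ![4, 5]], ![![0, 5], ![1, 2], ![3, 4]], ![![0, 3], ![1, 4], ![2, 5]],
    ![![0, 4], ![1, 3], ![2, 5]], ![![0, 3], ![1, 5], ![2, 4]], ![![0, 2], ![1, 4], ![3, 5]]]

theorem ps_bij : ∀ k, Function.Bijective fun q : Fin 3 × Fin 2 => ps k q.1 q.2 := by
  decide

/-- coefficients of the sign vectors in terms of the matchings -/
def coef : Fin 6 → Fin 6 → ℤ :=
  ![![-1, -1, -1, 0, 0, 0], ![-1, 1, 1, 0, 0, 0], ![1, -1, 1, 0, 0, 0],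
    ![1, 1, 1, -2, 0, 0], ![1, 1, 1, 0, -2, 0], ![1, 1, 1, 0, 0, -2]]

/-- the six sign vectors -/
def g (T : Fin 6) (b : Bits 6) : ℤ := ∑ k, coef T k * mz (ps k) b

/-- the vector with coefficients `x` -/
def vec (x : Fin 6 → ℤ) (b : Bits 6) : ℤ := ∑ T, x T * g T b

theorem Inv.sum {N : ℕ} {κ : Type*} (s : Finset κ) (v : κ → Bits N → ℂ)
    (h : ∀ k ∈ s, Inv (v k)) : Inv (∑ k ∈ s, v k) := by
  intro U hU
  rw [Matrix.mulVec_sum]
  exact Finset.sum_congr rfl fun k hk => h k hk U hU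

theorem inv_g (T : Fin 6) : Inv (fun b => (g T b : ℂ)) := by
  have h1 : (fun b => (g T b : ℂ)) = ∑ k, (coef T k : ℂ) • fun b => (mz (ps k) b : ℂ) := by
    funext b
    simp [g, Finset.sum_apply]
  rw [h1]
  exact Inv.sum _ _ fun k _ => (inv_mz (ps k) (ps_bij k)).smul _

theorem inv_vec (x : Fin 6 → ℤ) : Inv (fun b => (vec x b : ℂ)) := by
  have h1 : (fun b => (vec x b : ℂ)) = ∑ T, (x T : ℂ) • fun b => (g T b : ℂ) := by
    funext b
    simp [vec, Finset.sum_apply]
  rw [h1]
  exact Inv.sum _ _ fun T _ => (inv_g T).smul _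

/-- balanced bit strings -/
def bal (b : Bits 6) : Prop := (b 0).val + (b 1).val + (b 2).val + (b 3).val + (b 4).val +
  (b 5).val = 3

instance : DecidablePred bal := fun b => by unfold bal; infer_instance

/-- the coefficients of the target state -/
def av : Fin 6 → ℤ := ![15, -1, -2, -3, -4, -5]

/-- coefficients of the components of the mixed state -/
def w1 : Fin 6 → ℤ := ![15, 1, -1, -3, -5, -7]
/-- coefficients of the components of the mixed state -/
def w2 : Fin 6 → ℤ := ![5, -1, -1, -1, -1, -1]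
/-- coefficients of the components of the mixed state -/
def w3 : Fin 6 → ℤ := ![0, 2, -1, -2, -1, 2]
/-- coefficients of the components of the mixed state -/
def w4 : Fin 6 → ℤ := ![0, -1, 2, 0, -2, 1]
/-- coefficients of the components of the mixed state -/
def w5 : Fin 6 → ℤ := ![0, 1, -4, 6, -4, 1]

theorem F1 : ∀ b : Bits 6, ∑ T, g T b = 0 := by decide +kernel

theorem F2 : ∀ b b' : Bits 6, bal b → bal b' →
    192 * (if b = b' then 1 else 0) - 8 * ∑ T, g T b * g T b' =
      3 * (∑ i, sg (b i) * sg (b' i)) ^ 2 + 8 * (∑ i, sg (b i) * sg (b' i)) - 12 := by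
  decide +kernel

theorem F3 : ∀ b : Bits 6, 21 * vec w1 b ^ 2 + 133 * vec w2 b ^ 2 + 30 * vec w3 b ^ 2 +
    42 * vec w4 b ^ 2 + 6 * vec w5 b ^ 2 = 42 * vec av b ^ 2 := by
  decide +kernel

theorem F4a : ∑ b : Bits 6, vec av b = 0 := by decide +kernel
theorem F4b : ∀ i, ∑ b : Bits 6, sg (b i) * vec av b = 0 := by decide +kernel
theorem F4c : ∀ i j, ∑ b : Bits 6, sg (b i) * sg (b j) * vec av b = 0 := by decide +kernel
theorem F5 : ∀ b : Bits 6, ¬ bal b → ∀ T, g T b = 0 := by decide +kernel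
theorem F6 : ∑ b : Bits 6, vec av b ^ 2 = 6720 := by decide +kernel
theorem F7 : ∃ b b' : Bits 6, 21 * (vec w1 b * vec w1 b') + 133 * (vec w2 b * vec w2 b') +
    30 * (vec w3 b * vec w3 b') + 42 * (vec w4 b * vec w4 b') + 6 * (vec w5 b * vec w5 b') ≠
    42 * (vec av b * vec av b') := by
  decide +kernel
theorem F8' : ∀ i j k : Fin 6, (i ≠ j ∧ i ≠ k ∧ j ≠ k) → ∃ b : Bits 6,
    ∀ T, g T b = if T = i ∨ T = j ∨ T = k then 1 else -1 := by
  decide +kernel

theorem F8 (i j k : Fin 6) (hij : i ≠ j) (hik : i ≠ k) (hjk : j ≠ k) : ∃ b : Bits 6,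
    ∀ T, g T b = if T = i ∨ T = j ∨ T = k then 1 else -1 := F8' i j k ⟨hij, hik, hjk⟩

/-! ### The target state and the mixed state -/

/-- The normalisation constant. -/
noncomputable def kap : ℝ := (Real.sqrt 6720)⁻¹

theorem kap_sq : kap ^ 2 = 1 / 6720 := by
  rw [kap, inv_pow, Real.sq_sqrt (by norm_num)]
  norm_num

/-- The target state. -/
noncomputable def tgt : Bits 6 → ℂ := fun b => (kap : ℂ) * (vec av b : ℂ)

theorem proj_smul {N : ℕ} (c : ℂ) (v : Bits N → ℂ) :
    proj (fun b => c * v b) = ((‖c‖ ^ 2 : ℝ) : ℂ) • proj v := by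
  ext b b'
  simp only [proj, Matrix.vecMulVec_apply, Matrix.smul_apply, Pi.star_apply, smul_eq_mul]
  rw [Complex.ofReal_pow, ← Complex.mul_conj', ← starRingEnd_apply, ← starRingEnd_apply, map_mul]
  ring

theorem unit_tgt : IsUnitVec tgt := by
  unfold IsUnitVec tgt
  have h1 : ∀ b : Bits 6, ‖(kap : ℂ) * (vec av b : ℂ)‖ ^ 2 =
      kap ^ 2 * ((vec av b ^ 2 : ℤ) : ℝ) := by
    intro b
    rw [norm_mul, mul_pow, Complex.norm_real, Complex.norm_intCast, Real.norm_eq_abs, sq_abs,
      sq_abs]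
    push_cast
    ring
  simp only [h1]
  rw [← Finset.mul_sum, kap_sq]
  have h2 : ∑ b : Bits 6, ((vec av b ^ 2 : ℤ) : ℝ) = 6720 := by exact_mod_cast F6
  rw [h2]
  norm_num

theorem inv_tgt : Inv tgt := by
  have h1 : tgt = (kap : ℂ) • fun b => (vec av b : ℂ) := rfl
  rw [h1]
  exact (inv_vec av).smul _

/-- complex version of an integer vector -/
def cv (x : Fin 6 → ℤ) : Bits 6 → ℂ := fun b => (vec x b : ℂ)

/-- The mixed state with the same data. -/
noncomputable def mixed : Matrix (Bits 6) (Bits 6) ℂ :=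
  ((1 / 282240 : ℝ) : ℂ) • ((21 : ℂ) • proj (cv w1) + (133 : ℂ) • proj (cv w2) +
    (30 : ℂ) • proj (cv w3) + (42 : ℂ) • proj (cv w4) + (6 : ℂ) • proj (cv w5))

theorem proj_cv (x : Fin 6 → ℤ) (b b' : Bits 6) :
    proj (cv x) b b' = ((vec x b * vec x b' : ℤ) : ℂ) := by
  simp [proj, cv, Matrix.vecMulVec_apply]

theorem proj_tgt (b b' : Bits 6) :
    proj tgt b b' = ((1 / 6720 : ℝ) : ℂ) * ((vec av b * vec av b' : ℤ) : ℂ) := by
  have h1 := congrFun (congrFun (proj_smul (kap : ℂ) (cv av)) b) b'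
  have h2 : ‖(kap : ℂ)‖ ^ 2 = 1 / 6720 := by
    rw [Complex.norm_real, Real.norm_eq_abs, sq_abs, kap_sq]
  rw [h2, Matrix.smul_apply, proj_cv, smul_eq_mul] at h1
  exact h1

theorem mixed_apply (b b' : Bits 6) : mixed b b' = ((1 / 282240 : ℝ) : ℂ) *
    ((21 * (vec w1 b * vec w1 b') + 133 * (vec w2 b * vec w2 b') + 30 * (vec w3 b * vec w3 b') +
      42 * (vec w4 b * vec w4 b') + 6 * (vec w5 b * vec w5 b') : ℤ) : ℂ) := by
  simp only [mixed, Matrix.smul_apply, Matrix.add_apply, proj_cv, smul_eq_mul]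
  push_cast
  ring

theorem mixed_diag (b : Bits 6) : mixed b b = proj tgt b b := by
  rw [mixed_apply, proj_tgt]
  have h1 := F3 b
  have h2 : (21 * (vec w1 b * vec w1 b) + 133 * (vec w2 b * vec w2 b) +
      30 * (vec w3 b * vec w3 b) + 42 * (vec w4 b * vec w4 b) + 6 * (vec w5 b * vec w5 b) : ℤ) =
      42 * (vec av b * vec av b) := by
    rw [← sq, ← sq, ← sq, ← sq, ← sq, ← sq]
    exact h1
  rw [h2]
  push_cast
  ring

theorem mixed_ne : mixed ≠ proj tgt := by
  intro h
  obtain ⟨b, b', hb⟩ := F7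
  apply hb
  have h1 := congrFun (congrFun h b) b'
  rw [mixed_apply, proj_tgt] at h1
  have h2 : ((21 * (vec w1 b * vec w1 b') + 133 * (vec w2 b * vec w2 b') +
      30 * (vec w3 b * vec w3 b') + 42 * (vec w4 b * vec w4 b') +
      6 * (vec w5 b * vec w5 b') : ℤ) : ℂ) = ((42 * (vec av b * vec av b') : ℤ) : ℂ) := by
    push_cast at h1 ⊢
    linear_combination 282240 * h1
  exact_mod_cast h2

theorem trace_tgt : (proj tgt).trace = 1 := by
  have h1 := unit_tgt
  unfold IsUnitVec at h1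
  rw [Matrix.trace]
  have h2 : ∀ b : Bits 6, (proj tgt).diag b = ((‖tgt b‖ ^ 2 : ℝ) : ℂ) := by
    intro b
    rw [Matrix.diag_apply, proj, Matrix.vecMulVec_apply, Pi.star_apply, Complex.ofReal_pow,
      ← Complex.mul_conj', starRingEnd_apply]
  simp only [h2]
  rw [← Complex.ofReal_sum, h1, Complex.ofReal_one]

theorem mixed_state : mixed ∈ states 6 := by
  refine ⟨?_, ?_⟩
  · have hp : ∀ (c : ℂ) (x : Fin 6 → ℤ), 0 ≤ c → (c • proj (cv x)).PosSemidef := by
      intro c x hc
      exact (Matrix.posSemidef_vecMulVec_self_star (cv x)).smul hc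
    unfold mixed
    refine Matrix.PosSemidef.smul ?_ ?_
    · exact ((((hp 21 w1 (by norm_num)).add (hp 133 w2 (by norm_num))).add
        (hp 30 w3 (by norm_num))).add (hp 42 w4 (by norm_num))).add (hp 6 w5 (by norm_num))
    · rw [Complex.zero_le_real]
      norm_num
  · rw [← trace_tgt, Matrix.trace, Matrix.trace]
    exact Finset.sum_congr rfl fun b _ => mixed_diag b

theorem data_add {N : ℕ} (ρ ρ' : Matrix (Bits N) (Bits N) ℂ) (n : Fin 3 → ℝ)
    (S : Finset (Fin N)) : data (ρ + ρ') n S = data ρ n S + data ρ' n S := by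
  rw [data, Matrix.add_mul, Matrix.trace_add]; rfl

theorem data_smul {N : ℕ} (c : ℂ) (ρ : Matrix (Bits N) (Bits N) ℂ) (n : Fin 3 → ℝ)
    (S : Finset (Fin N)) : data (c • ρ) n S = c * data ρ n S := by
  rw [data, Matrix.smul_mul, Matrix.trace_smul]; rfl

theorem mixed_data {n : Fin 3 → ℝ} (hn : IsDirection n) (S : Finset (Fin 6)) :
    data mixed n S = data (proj tgt) n S := by
  have h1 : data mixed n S = data mixed ez S := by
    simp only [mixed, data_add, data_smul]
    rw [data_inv (v := cv w1) (inv_vec w1) hn, data_inv (v := cv w2) (inv_vec w2) hn,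
      data_inv (v := cv w3) (inv_vec w3) hn, data_inv (v := cv w4) (inv_vec w4) hn,
      data_inv (v := cv w5) (inv_vec w5) hn]
  rw [h1, data_inv inv_tgt hn, data_ez, data_ez]
  exact Finset.sum_congr rfl fun b _ => by rw [mixed_diag]

/-! ### Uniqueness among pure states -/

theorem coords {φ : Bits 6 → ℂ} (h0 : ∀ b, ¬ bal b → φ b = 0) (hs : ∑ b, φ b = 0)
    (hs1 : ∀ i, ∑ b, (sg (b i) : ℂ) * φ b = 0)
    (hs2 : ∀ i j, ∑ b, (sg (b i) : ℂ) * (sg (b j) : ℂ) * φ b = 0) (b : Bits 6) :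
    φ b = 1 / 2 * ∑ T, (g T b : ℂ) * (1 / 12 * ∑ b', (g T b' : ℂ) * φ b') := by
  by_cases hb : bal b
  swap
  · rw [h0 b hb]
    simp [F5 b hb]
  have h1 : ∀ b' : Bits 6, (192 * (if b = b' then 1 else 0) -
      8 * ∑ T, (g T b : ℂ) * (g T b' : ℂ)) * φ b' =
      (3 * (∑ i, (sg (b i) : ℂ) * (sg (b' i) : ℂ)) ^ 2 +
        8 * (∑ i, (sg (b i) : ℂ) * (sg (b' i) : ℂ)) - 12) * φ b' := by
    intro b'
    by_cases hb' : bal b'
    · congr 1
      have := F2 b b' hb hb'
      exact_mod_cast this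
    · rw [h0 b' hb', mul_zero, mul_zero]
  have h2 : ∑ b', (192 * (if b = b' then 1 else 0) -
      8 * ∑ T, (g T b : ℂ) * (g T b' : ℂ)) * φ b' =
      192 * φ b - 8 * ∑ T, (g T b : ℂ) * ∑ b', (g T b' : ℂ) * φ b' := by
    simp only [sub_mul, Finset.sum_sub_distrib]
    congr 1
    · simp
    · rw [Finset.mul_sum]
      simp only [Finset.mul_sum, Finset.sum_mul]
      rw [Finset.sum_comm]
      exact Finset.sum_congr rfl fun T _ => Finset.sum_congr rfl fun b' _ => by ring
  have h3 : ∑ b', (3 * (∑ i, (sg (b i) : ℂ) * (sg (b' i) : ℂ)) ^ 2 +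
      8 * (∑ i, (sg (b i) : ℂ) * (sg (b' i) : ℂ)) - 12) * φ b' = 0 := by
    have h4 : ∀ b' : Bits 6, (3 * (∑ i, (sg (b i) : ℂ) * (sg (b' i) : ℂ)) ^ 2 +
        8 * (∑ i, (sg (b i) : ℂ) * (sg (b' i) : ℂ)) - 12) * φ b' =
        3 * (∑ i, ∑ j, (sg (b i) : ℂ) * (sg (b j) : ℂ) *
          ((sg (b' i) : ℂ) * (sg (b' j) : ℂ) * φ b')) +
        8 * (∑ i, (sg (b i) : ℂ) * ((sg (b' i) : ℂ) * φ b')) - 12 * φ b' := by
      intro b'
      rw [sq, Finset.sum_mul_sum, sub_mul, add_mul]
      congr 2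
      · rw [mul_assoc, Finset.sum_mul]
        congr 1
        refine Finset.sum_congr rfl fun i _ => ?_
        rw [Finset.sum_mul]
        exact Finset.sum_congr rfl fun j _ => by ring
      · rw [mul_assoc, Finset.sum_mul]
        congr 1
        exact Finset.sum_congr rfl fun i _ => by ring
    simp only [h4]
    rw [Finset.sum_sub_distrib, Finset.sum_add_distrib, ← Finset.mul_sum, ← Finset.mul_sum,
      ← Finset.mul_sum, hs, Finset.sum_comm]
    have h5 : ∀ i, ∑ b' : Bits 6, ∑ j, (sg (b i) : ℂ) * (sg (b j) : ℂ) *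
        ((sg (b' i) : ℂ) * (sg (b' j) : ℂ) * φ b') = 0 := by
      intro i
      rw [Finset.sum_comm]
      refine Finset.sum_eq_zero fun j _ => ?_
      rw [← Finset.mul_sum, hs2, mul_zero]
    have h6 : ∑ b' : Bits 6, ∑ i, (sg (b i) : ℂ) * ((sg (b' i) : ℂ) * φ b') = 0 := by
      rw [Finset.sum_comm]
      refine Finset.sum_eq_zero fun i _ => ?_
      rw [← Finset.mul_sum, hs1, mul_zero]
    simp only [h5, h6]
    simp
  have h7 : 192 * φ b - 8 * ∑ T, (g T b : ℂ) * ∑ b', (g T b' : ℂ) * φ b' = 0 := by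
    have h9 := Finset.sum_congr (rfl : (Finset.univ : Finset (Bits 6)) = Finset.univ)
      fun b' _ => h1 b'
    rw [h2, h3] at h9
    exact h9
  have h8 : ∑ T, (g T b : ℂ) * (1 / 12 * ∑ b', (g T b' : ℂ) * φ b') =
      1 / 12 * ∑ T, (g T b : ℂ) * ∑ b', (g T b' : ℂ) * φ b' := by
    rw [Finset.mul_sum]
    exact Finset.sum_congr rfl fun T _ => by ring
  rw [h8]
  linear_combination (1 / 192 : ℂ) * h7

theorem chi_empty {N : ℕ} (b : Bits N) : chi ∅ b = 1 := by simp [chi]
theorem chi_single {N : ℕ} (i : Fin N) (b : Bits N) : chi {i} b = sg (b i) := by simp [chi]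
theorem chi_pair {N : ℕ} {i j : Fin N} (h : i ≠ j) (b : Bits N) :
    chi {i, j} b = sg (b i) * sg (b j) := by rw [chi, Finset.prod_pair h]

theorem sg_sq (x : Fin 2) : sg x * sg x = 1 := by fin_cases x <;> simp [sg]

theorem pure_unique : Certifiable tgt (pureStates 6) := by
  rintro ρ ⟨φ, hφ, rfl⟩ hdata
  have hz : ∀ S, data (proj φ) ez S = data (proj tgt) ez S := hdata ez isDirection_ez
  have hx : ∀ S, data (proj φ) ex S = data (proj tgt) ex S := hdata ex isDirection_ex
  have hmod : ∀ b, ‖φ b‖ = ‖tgt b‖ := by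
    intro b
    have h1 := diag_eq hz b
    rw [proj, proj, Matrix.vecMulVec_apply, Matrix.vecMulVec_apply, Pi.star_apply, Pi.star_apply,
      ← starRingEnd_apply, ← starRingEnd_apply, Complex.mul_conj', Complex.mul_conj'] at h1
    have h2 : ‖φ b‖ ^ 2 = ‖tgt b‖ ^ 2 := by exact_mod_cast h1
    exact (pow_left_inj₀ (norm_nonneg _) (norm_nonneg _) (by norm_num)).1 h2
  have h0 : ∀ b, ¬ bal b → φ b = 0 := by
    intro b hb
    have h1 := hmod b
    have h2 : tgt b = 0 := by
      simp [tgt, vec, F5 b hb]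
    rw [h2, norm_zero, norm_eq_zero] at h1
    exact h1
  have had : ∀ J : Finset (Fin 6), ∑ b : Bits 6, chi J b * vec av b = 0 →
      ∑ b, (chi J b : ℂ) * φ b = 0 := by
    intro J hJ
    have h1 := hadamard_eq hx J
    have h2 : ∑ b : Bits 6, (chi J b : ℂ) * tgt b = 0 := by
      have h3 : ∑ b : Bits 6, (chi J b : ℂ) * (vec av b : ℂ) = 0 := by exact_mod_cast hJ
      have h4 : ∀ b : Bits 6, (chi J b : ℂ) * tgt b =
          (kap : ℂ) * ((chi J b : ℂ) * (vec av b : ℂ)) := by
        intro b; rw [tgt]; ring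
      simp only [h4]
      rw [← Finset.mul_sum, h3, mul_zero]
    rw [h2, norm_zero, norm_eq_zero] at h1
    exact h1
  have hs : ∑ b, φ b = 0 := by
    have h1 := had ∅ (by simpa [chi_empty] using F4a)
    simpa [chi_empty] using h1
  have hs1 : ∀ i, ∑ b, (sg (b i) : ℂ) * φ b = 0 := by
    intro i
    have h1 := had {i} (by simpa [chi_single] using F4b i)
    simpa [chi_single] using h1
  have hs2 : ∀ i j, ∑ b, (sg (b i) : ℂ) * (sg (b j) : ℂ) * φ b = 0 := by
    intro i j
    by_cases hij : i = j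
    · subst hij
      have h1 : ∀ b : Bits 6, (sg (b i) : ℂ) * (sg (b i) : ℂ) * φ b = φ b := by
        intro b
        have h2 : (sg (b i) : ℂ) * (sg (b i) : ℂ) = 1 := by exact_mod_cast sg_sq (b i)
        rw [h2, one_mul]
      simp only [h1]
      exact hs
    · have h1 := had {i, j} (by simpa [chi_pair hij] using F4c i j)
      simpa [chi_pair hij] using h1
  set c : Fin 6 → ℂ := fun T => 1 / 12 * ∑ b', (g T b' : ℂ) * φ b' with hc
  have hφc : ∀ b, φ b = 1 / 2 * ∑ T, (g T b : ℂ) * c T := fun b => coords h0 hs hs1 hs2 b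
  have hc0 : ∑ T, c T = 0 := by
    rw [hc, ← Finset.mul_sum, Finset.sum_comm]
    have h1 : ∀ b' : Bits 6, ∑ T, (g T b' : ℂ) * φ b' = 0 := by
      intro b'
      have h2 : ∑ T, (g T b' : ℂ) = 0 := by exact_mod_cast F1 b'
      rw [← Finset.sum_mul, h2, zero_mul]
    simp [h1]
  have hsel : ∀ (x : Fin 6 → ℂ), ∑ T, x T = 0 → ∀ i j k : Fin 6, i ≠ j → i ≠ k → j ≠ k →
      ∀ b : Bits 6, (∀ T, g T b = if T = i ∨ T = j ∨ T = k then 1 else -1) →
      ∑ T, (g T b : ℂ) * x T = 2 * (x i + x j + x k) := by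
    intro x hx i j k hij hik hjk b hb
    have h1 : ∀ T, (g T b : ℂ) * x T = 2 * ((if T = i then x T else 0) +
        (if T = j then x T else 0) + (if T = k then x T else 0)) - x T := by
      intro T
      rw [hb T]
      by_cases hi : T = i
      · subst hi
        simp [hij, hik]
        ring
      · by_cases hj : T = j
        · subst hj
          simp [hi, hjk]
          ring
        · by_cases hk : T = k
          · subst hk
            simp [hi, hj]
            ring
          · simp [hi, hj, hk]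
    simp only [h1]
    rw [Finset.sum_sub_distrib, hx, ← Finset.mul_sum, Finset.sum_add_distrib,
      Finset.sum_add_distrib]
    simp
  let a : Fin 6 → ℝ := fun T => 2 * kap * (av T : ℝ)
  have hkap : kap ≠ 0 := by
    intro h
    have h1 := kap_sq
    rw [h] at h1
    norm_num at h1
  have ha : Function.Injective a := by
    intro i j hij
    have h1 : (2 * kap) * (av i : ℝ) = (2 * kap) * (av j : ℝ) := hij
    have h2 := mul_left_cancel₀ (mul_ne_zero two_ne_zero hkap) h1
    have h3 : av i = av j := by exact_mod_cast h2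
    have h4 : ∀ i j : Fin 6, av i = av j → i = j := by decide
    exact h4 i j h3
  have ha0 : ∑ T, a T = 0 := by
    have h1 : ∑ T, av T = 0 := by decide
    have h2 : ∑ T, (av T : ℝ) = 0 := by exact_mod_cast h1
    show ∑ T, 2 * kap * (av T : ℝ) = 0
    rw [← Finset.mul_sum, h2, mul_zero]
  have htgt : ∀ b, tgt b = 1 / 2 * ∑ T, (g T b : ℂ) * (a T : ℂ) := by
    intro b
    simp only [tgt, vec, a]
    push_cast
    rw [Finset.mul_sum, Finset.mul_sum]
    exact Finset.sum_congr rfl fun T _ => by ring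
  obtain ⟨μ, hμ, hcμ⟩ := core_lemma a ha ha0 c hc0 (by
    intro i j k hij hik hjk
    obtain ⟨b, hb⟩ := F8 i j k hij hik hjk
    have h1 := hsel c hc0 i j k hij hik hjk b hb
    have h2 := hsel (fun T => (a T : ℂ)) (by exact_mod_cast ha0) i j k hij hik hjk b hb
    have h3 := hmod b
    rw [hφc b, htgt b, h1, h2] at h3
    have h4 : (1 / 2 : ℂ) * (2 * (c i + c j + c k)) = c i + c j + c k := by ring
    have h5 : (1 / 2 : ℂ) * (2 * ((a i : ℂ) + (a j : ℂ) + (a k : ℂ))) =
        ((a i + a j + a k : ℝ) : ℂ) := by push_cast; ring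
    rw [h4, h5] at h3
    exact h3)
  have hφ' : φ = fun b => μ * tgt b := by
    funext b
    rw [hφc b, htgt b, Finset.mul_sum, Finset.mul_sum, Finset.mul_sum]
    refine Finset.sum_congr rfl fun T _ => ?_
    rw [hcμ T]
    ring
  rw [hφ', proj_smul, hμ]
  simp

/-- **Theorem.** There is a state of six qubits which is uniformly certifiable under the
promise that the state is pure, but not among all states. -/
theorem result : ∃ ψ : Bits 6 → ℂ, IsUnitVec ψ ∧ Certifiable ψ (pureStates 6) ∧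
    ¬ Certifiable ψ (states 6) := by
  refine ⟨tgt, unit_tgt, pure_unique, fun h => mixed_ne ?_⟩
  exact h mixed mixed_state fun n hn S => mixed_data hn S

end Pool.Agent.Results.MP_baa5e6_mp.SixQubits
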